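import Pool.Agent.helper7.IG.Stmt1

/-!
# IG, module HEN: Hensel's lemma for a derivative of finite order
-/

set_option autoImplicit false

open Polynomial

noncomputable section

namespace Pool.Agent.helper7.IG

open PowerSeries in
lemma hen_fix (T : PowerSeries kk → PowerSeries kk)
    (hT : ∀ (n : ℕ) (a b : PowerSeries kk), (PowerSeries.X : PowerSeries kk) ^ n ∣ a - b →
      (PowerSeries.X : PowerSeries kk) ^ (n + 1) ∣ T a - T b) :
    ∃ z : PowerSeries kk, T z = z := by
  classical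
  have h1 : ∀ n j : ℕ, (PowerSeries.X : PowerSeries kk) ^ n ∣ T^[n + j] 0 - T^[n] 0 := by
    intro n
    induction n with
    | zero => intro j; simp
    | succ n ih =>
      intro j
      have h := hT n _ _ (ih j)
      rw [show n + 1 + j = (n + j) + 1 by ring, Function.iterate_succ_apply',
        Function.iterate_succ_apply']
      exact h
  let z : PowerSeries kk := PowerSeries.mk fun n => PowerSeries.coeff n (T^[n + 1] 0)
  have h2 : ∀ n : ℕ, (PowerSeries.X : PowerSeries kk) ^ n ∣ z - T^[n] 0 := by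
    intro n
    rw [PowerSeries.X_pow_dvd_iff]
    intro i hi
    obtain ⟨j, rfl⟩ := Nat.exists_eq_add_of_lt hi
    have h3 := h1 (i + 1) j
    rw [PowerSeries.X_pow_dvd_iff] at h3
    have h4 := h3 i (Nat.lt_succ_self i)
    rw [map_sub, sub_eq_zero] at h4
    rw [map_sub, sub_eq_zero, show i + j + 1 = i + 1 + j by ring, h4]
    simp only [z, PowerSeries.coeff_mk]
  refine ⟨z, ?_⟩
  have h5 : ∀ n : ℕ, (PowerSeries.X : PowerSeries kk) ^ (n + 1) ∣ T z - z := by
    intro n
    have h6 := hT n _ _ (h2 n)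
    have h7 := h2 (n + 1)
    rw [Function.iterate_succ_apply'] at h7
    have h8 := dvd_sub h6 h7
    have h9 : T z - T (T^[n] 0) - (z - T (T^[n] 0)) = T z - z := by ring
    rwa [h9] at h8
  rw [← sub_eq_zero]
  ext n
  have h6 := h5 n
  rw [PowerSeries.X_pow_dvd_iff] at h6
  rw [h6 n (Nat.lt_succ_self n)]
  simp

lemma hen_expand (f : Polynomial (PowerSeries kk)) (y0 w : PowerSeries kk) :
    f.eval (y0 + w) = f.eval y0 + f.derivative.eval y0 * w +
      (Polynomial.divX (Polynomial.divX (Polynomial.taylor y0 f))).eval w * w ^ 2 := by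
  have h1 : f.eval (y0 + w) = (Polynomial.taylor y0 f).eval w := by
    rw [Polynomial.taylor_eval, add_comm]
  have h2 := Polynomial.divX_mul_X_add (Polynomial.taylor y0 f)
  have h3 := Polynomial.divX_mul_X_add (Polynomial.divX (Polynomial.taylor y0 f))
  rw [h1]
  conv_lhs => rw [← h2, ← h3]
  simp only [Polynomial.eval_add, Polynomial.eval_mul, Polynomial.eval_X, Polynomial.eval_C,
    Polynomial.coeff_divX, zero_add, Polynomial.taylor_coeff_zero, Polynomial.taylor_coeff_one]
  ring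

lemma hen_fac (φ : PowerSeries kk) (δ : ℕ) (h : ¬ (PowerSeries.X ^ (δ + 1) ∣ φ)) :
    ∃ (d : ℕ) (u : PowerSeries kk), d ≤ δ ∧ IsUnit u ∧ φ = PowerSeries.X ^ d * u := by
  classical
  have hex : ∃ d : ℕ, ¬ ((PowerSeries.X : PowerSeries kk) ^ (d + 1) ∣ φ) := ⟨δ, h⟩
  have hd := Nat.find_spec hex
  have hle : Nat.find hex ≤ δ := Nat.find_min' hex h
  have hdiv : (PowerSeries.X : PowerSeries kk) ^ (Nat.find hex) ∣ φ := by
    rcases Nat.eq_zero_or_pos (Nat.find hex) with h0 | h0
    · rw [h0]; simp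
    · have h1 := Nat.find_min hex (m := Nat.find hex - 1) (by omega)
      rw [not_not] at h1
      rwa [Nat.sub_add_cancel h0] at h1
  obtain ⟨u, hu⟩ := hdiv
  refine ⟨Nat.find hex, u, hle, ?_, hu⟩
  rw [PowerSeries.isUnit_iff_constantCoeff, isUnit_iff_ne_zero]
  intro h0
  apply hd
  have h2 := PowerSeries.X_dvd_iff.mpr h0
  obtain ⟨v, hv⟩ := h2
  refine ⟨v, ?_⟩
  conv_lhs => rw [hu, hv]
  ring

/-- Module HEN. -/
theorem HEN : HEN_stmt := by
  intro f y0 δ M hM h0 h1
  obtain ⟨d, u, hd, hu, hfu⟩ := hen_fac _ δ h1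
  obtain ⟨c, hc⟩ := h0
  obtain ⟨v, hv⟩ := hu.exists_right_inv
  set H := Polynomial.divX (Polynomial.divX (Polynomial.taylor y0 f)) with hH
  have hk : d + (M - d) = M := by omega
  have he : (M - d) * 2 = M + (M - 2 * d) := by omega
  have he1 : M - 2 * d = (M - 2 * d - 1) + 1 := by omega
  let T : PowerSeries kk → PowerSeries kk := fun z =>
    -(v * (c + PowerSeries.X ^ (M - 2 * d) * (z ^ 2 * H.eval (PowerSeries.X ^ (M - d) * z))))
  obtain ⟨z, hz⟩ := hen_fix T (by
    intro n a b hab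
    have h2 : (PowerSeries.X : PowerSeries kk) ^ n ∣ a ^ 2 - b ^ 2 :=
      hab.trans (sub_dvd_pow_sub_pow a b 2)
    have h3 : (PowerSeries.X : PowerSeries kk) ^ n ∣
        H.eval (PowerSeries.X ^ (M - d) * a) - H.eval (PowerSeries.X ^ (M - d) * b) := by
      refine dvd_trans ?_ (Polynomial.sub_dvd_eval_sub _ _ H)
      rw [← mul_sub]
      exact hab.mul_left _
    have h4 : (PowerSeries.X : PowerSeries kk) ^ n ∣
        a ^ 2 * H.eval (PowerSeries.X ^ (M - d) * a) -
          b ^ 2 * H.eval (PowerSeries.X ^ (M - d) * b) := by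
      have h5 : a ^ 2 * H.eval (PowerSeries.X ^ (M - d) * a) -
          b ^ 2 * H.eval (PowerSeries.X ^ (M - d) * b) =
          (a ^ 2 - b ^ 2) * H.eval (PowerSeries.X ^ (M - d) * a) +
          b ^ 2 * (H.eval (PowerSeries.X ^ (M - d) * a) -
            H.eval (PowerSeries.X ^ (M - d) * b)) := by ring
      rw [h5]
      exact dvd_add (h2.mul_right _) (h3.mul_left _)
    obtain ⟨g, hg⟩ := h4
    refine ⟨-(v * (PowerSeries.X ^ (M - 2 * d - 1) * g)), ?_⟩
    have h6 : T a - T b = -(v * (PowerSeries.X ^ (M - 2 * d) *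
        (a ^ 2 * H.eval (PowerSeries.X ^ (M - d) * a) -
          b ^ 2 * H.eval (PowerSeries.X ^ (M - d) * b)))) := by
      simp only [T]
      ring
    rw [h6, hg]
    conv_lhs => rw [he1]
    rw [pow_succ, pow_succ]
    ring)
  have hz2 : u * z = -(c + PowerSeries.X ^ (M - 2 * d) *
      (z ^ 2 * H.eval (PowerSeries.X ^ (M - d) * z))) := by
    conv_lhs => rw [← hz]
    simp only [T]
    rw [mul_neg, ← mul_assoc, hv, one_mul]
  refine ⟨y0 + PowerSeries.X ^ (M - d) * z, ?_, ?_⟩
  · rw [hen_expand, ← hH, hc, hfu]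
    have h7 : (PowerSeries.X : PowerSeries kk) ^ M * c +
        PowerSeries.X ^ d * u * (PowerSeries.X ^ (M - d) * z) +
        H.eval (PowerSeries.X ^ (M - d) * z) * (PowerSeries.X ^ (M - d) * z) ^ 2 =
        PowerSeries.X ^ M * c + PowerSeries.X ^ (d + (M - d)) * (u * z) +
        PowerSeries.X ^ ((M - d) * 2) * (z ^ 2 * H.eval (PowerSeries.X ^ (M - d) * z)) := by
      rw [pow_add, mul_pow, pow_mul]
      ring
    rw [h7, hz2, hk, he, pow_add]
    ring
  · rw [add_sub_cancel_left]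
    exact (pow_dvd_pow _ (by omega)).trans (dvd_mul_right _ _)

end Pool.Agent.helper7.IG
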