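import Pool.Agent.helper7.IG.Stmt1

/-!
# IG, module IND: the variable is transcendental over the field of modular functions
-/

set_option autoImplicit false

open Polynomial

noncomputable section

namespace Pool.Agent.helper7.IG

lemma ind_incl_C (c : kk) : incl (C c) = algebraMap kk LL c := by
  have h : algebraMap kk LL c = HahnSeries.C c := rfl
  rw [h]
  unfold incl
  simp only [RingHom.coe_comp, Function.comp_apply, Polynomial.coeToPowerSeries.ringHom_apply,
    Polynomial.coe_C]
  exact HahnSeries.ofPowerSeries_C c

lemma ind_incl_X : incl (X : Polynomial kk) = xx := by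
  unfold incl xx
  simp only [RingHom.coe_comp, Function.comp_apply, Polynomial.coeToPowerSeries.ringHom_apply,
    Polynomial.coe_X]
  exact HahnSeries.ofPowerSeries_X

lemma ind_incl (p : Polynomial kk) : incl p = aeval xx p := by
  induction p using Polynomial.induction_on' with
  | add p q hp hq => rw [map_add, map_add, hp, hq]
  | monomial n a =>
    rw [← C_mul_X_pow_eq_monomial, map_mul, map_pow, map_mul, map_pow, ind_incl_C, ind_incl_X,
      aeval_C, aeval_X]

lemma ind_ev (P : Polynomial (Polynomial kk)) : ev P = aevalAeval xx DDk P := by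
  unfold ev
  induction P using Polynomial.induction_on' with
  | add p q hp hq => rw [eval₂_add, map_add, hp, hq]
  | monomial n a =>
    rw [← C_mul_X_pow_eq_monomial, eval₂_mul, eval₂_C, eval₂_pow, eval₂_X, map_mul, map_pow,
      aevalAeval_C, aevalAeval_Y, ind_incl]

lemma ind_alg (F : LL) (hF : F ∈ MM) : IsAlgebraic (IntermediateField.adjoin kk {DDk}) F :=
  mem_MM.mp hF

open scoped IntermediateField.algebraAdjoinAdjoin in
lemma ind_trans (htc : TC_stmt) : ¬ IsAlgebraic (IntermediateField.adjoin kk {DDk}) xx := by
  intro h
  have h1 : IsAlgebraic (Algebra.adjoin kk {DDk}) xx :=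
    (IsFractionRing.isAlgebraic_iff (Algebra.adjoin kk {DDk})
      (IntermediateField.adjoin kk {DDk}) LL).mpr h
  obtain ⟨p, hp, hpx⟩ := h1
  have hsurj : ∀ x : Algebra.adjoin kk {DDk}, ∃ q : Polynomial kk, aeval DDk q = (x : LL) := by
    intro x
    have h2 : (x : LL) ∈ (aeval (R := kk) DDk).range := by
      rw [← Algebra.adjoin_singleton_eq_range_aeval]
      exact x.2
    exact h2
  choose lift hlift using hsurj
  classical
  let P : Polynomial (Polynomial kk) := ∑ i ∈ p.support, Polynomial.monomial i (lift (p.coeff i))
  have hcoef : ∀ i ∈ p.support, P.coeff i = lift (p.coeff i) := by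
    intro i hi
    simp only [P, Polynomial.finsetSum_coeff, Polynomial.coeff_monomial]
    rw [Finset.sum_eq_single i]
    · rw [if_pos rfl]
    · intro j _ hj
      rw [if_neg hj]
    · intro h; exact absurd hi h
  have hP0 : P ≠ 0 := by
    intro h0
    obtain ⟨i, hi⟩ := Polynomial.nonempty_support_iff.mpr hp
    have h3 := hcoef i hi
    rw [h0, Polynomial.coeff_zero] at h3
    have h4 := hlift (p.coeff i)
    rw [← h3, map_zero] at h4
    rw [Polynomial.mem_support_iff] at hi
    exact hi (Subtype.ext h4.symm)
  have hPx : aevalAeval DDk xx P = 0 := by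
    simp only [P]
    rw [map_sum]
    rw [Polynomial.aeval_def, Polynomial.eval₂_eq_sum, Polynomial.sum_def] at hpx
    rw [← hpx]
    refine Finset.sum_congr rfl fun i _ => ?_
    rw [← C_mul_X_pow_eq_monomial, map_mul, map_pow, aevalAeval_C, aevalAeval_Y, hlift]
    rfl
  have h5 := htc (Polynomial.Bivariate.swap P) (by
    intro h6
    apply hP0
    have := congrArg Polynomial.Bivariate.swap h6
    rwa [Polynomial.Bivariate.swap_swap_apply, map_zero] at this)
  rw [ind_ev, Polynomial.Bivariate.aevalAeval_swap] at h5
  exact h5 hPx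

/-- Module IND. -/
theorem IND_of (htc : TC_stmt) : IND_stmt := by
  intro n b hb hsum
  by_contra hcon
  push Not at hcon
  obtain ⟨k, hk, hbk⟩ := hcon
  have h1 : IsAlgebraic MM xx := by
    classical
    let q : Polynomial MM := ∑ i ∈ Finset.range n, Polynomial.monomial i ⟨b i, hb i⟩
    refine ⟨q, ?_, ?_⟩
    · intro h0
      have h2 : q.coeff k = ⟨b k, hb k⟩ := by
        simp only [q, Polynomial.finsetSum_coeff, Polynomial.coeff_monomial]
        rw [Finset.sum_eq_single k]
        · rw [if_pos rfl]
        · intro j _ hj
          rw [if_neg hj]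
        · intro h; exact absurd (Finset.mem_range.mpr hk) h
      rw [h0, Polynomial.coeff_zero] at h2
      exact hbk (congrArg Subtype.val h2.symm)
    · simp only [q]
      rw [map_sum, ← hsum]
      refine Finset.sum_congr rfl fun i _ => ?_
      rw [Polynomial.aeval_monomial, mul_comm]
      rfl
  apply ind_trans htc
  have h2 : IsAlgebraic (algebraicClosure (IntermediateField.adjoin kk {DDk}) LL) xx := h1
  exact h2.restrictScalars (IntermediateField.adjoin kk {DDk})

end Pool.Agent.helper7.IG
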